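import Pool.Agent.Helper74.FN.Defs

/-!
# FN: auxiliary lemmas (copy of the first part of Helper50/FN/C3.lean)
-/

set_option autoImplicit false

namespace Pool.Agent.Helper74.FN.Aux

open Finset
open Pool.Agent.Helper53.WR
open Pool.Agent.Helper48.FB (win crossF Cs Fs)
open Pool.Agent.Helper74.FN

lemma crossF_swap_card (X Y : Finset ℕ) (n : ℕ) : (crossF Y X n).card ≤ (crossF X Y n).card := by
  classical
  have : crossF Y X n ⊆ (crossF X Y n).image Prod.swap := by
    rintro ⟨x, y⟩ hxy
    unfold crossF at hxy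
    rw [mem_filter, mem_product] at hxy
    rw [mem_image]
    refine ⟨(y, x), ?_, rfl⟩
    unfold crossF
    rw [mem_filter, mem_product]
    exact ⟨⟨hxy.1.2, hxy.1.1⟩, by have := hxy.2; simp only at this ⊢; omega⟩
  exact (card_le_card this).trans card_image_le

/-- Representations by `O ∪ A`. -/
lemma repF_union_le (O A : Finset ℕ) (n : ℕ) :
    repF (O ∪ A) n ≤ repF O n + repF A n + 2 * (crossF A O n).card := by
  classical
  have hsub : ((O ∪ A) ×ˢ (O ∪ A)).filter (fun p => p.1 + p.2 = n) ⊆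
      ((O ×ˢ O).filter (fun p => p.1 + p.2 = n) ∪ (A ×ˢ A).filter (fun p => p.1 + p.2 = n)) ∪
        (crossF A O n ∪ crossF O A n) := by
    rintro ⟨x, y⟩ hp
    rw [mem_filter, mem_product] at hp
    obtain ⟨⟨hx, hy⟩, hxy⟩ := hp
    simp only [mem_union] at hx hy hxy
    simp only [crossF, mem_union, mem_filter, mem_product]
    tauto
  have h1 := card_le_card hsub
  have h2 := card_union_le ((O ×ˢ O).filter (fun p => p.1 + p.2 = n) ∪
    (A ×ˢ A).filter (fun p => p.1 + p.2 = n)) (crossF A O n ∪ crossF O A n)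
  have h3 := card_union_le ((O ×ˢ O).filter (fun p => p.1 + p.2 = n))
    ((A ×ˢ A).filter (fun p => p.1 + p.2 = n))
  have h4 := card_union_le (crossF A O n) (crossF O A n)
  have h6 := crossF_swap_card A O n
  unfold repF
  omega

/-- Representations by `O ∪ A` if no number is a sum of two elements of `O`. -/
lemma repF_union_le' {O A : Finset ℕ} {n : ℕ} (hno : ∀ x ∈ O, ∀ y ∈ O, x + y ≠ n) :
    repF (O ∪ A) n ≤ repF A n + 2 * (crossF A O n).card := by
  have h1 := repF_union_le O A n
  have h2 : repF O n = 0 := by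
    unfold repF
    rw [card_eq_zero, filter_eq_empty_iff]
    rintro ⟨x, y⟩ hp hxy
    rw [mem_product] at hp
    exact hno x hp.1 y hp.2 hxy
  omega

section tow

variable {a u b w r c : ℕ → ℕ}

lemma u_ge (h : NTow a u b w r c) (k : ℕ) : 60000 ≤ u k := by
  have := h.lu k
  omega

lemma u_mono (h : NTow a u b w r c) : Monotone u := monotone_nat_of_le_succ h.uu'

lemma a_mono (h : NTow a u b w r c) : Monotone a :=
  monotone_nat_of_le_succ (fun k => by rw [h.step k]; exact Nat.le_add_right _ _)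

lemma sN_succ (h : NTow a u b w r c) (k : ℕ) : sN a u k + 4 * u k ≤ sN a u (k + 1) := by
  have h1 := h.step k
  have h2 := h.uu' k
  have h3 := u_ge h k
  unfold sN
  omega

lemma sN_mono (h : NTow a u b w r c) : Monotone (sN a u) :=
  monotone_nat_of_le_succ (fun k => le_trans (Nat.le_add_right _ _) (sN_succ h k))

/-- the end of world `k` is below the start of world `k + 2` -/
lemma top_le (h : NTow a u b w r c) (k : ℕ) :
    4 * a (k + 1) + 8 * u (k + 1) + 1 ≤ sN a u (k + 2) := by
  have h1 := h.step (k + 1)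
  have h2 := h.uu' (k + 1)
  have h3 := u_ge h (k + 1)
  show 4 * a (k + 1) + 8 * u (k + 1) + 1 ≤ 4 * a (k + 1 + 1) + 8 * u (k + 1 + 1) - 20
  omega

/-- representations by one world -/
lemma num_le (h : NTow a u b w r c) (k d : ℕ) :
    4096 ^ 2 * 2592 * Fs u k + 2 * (4096 * (tN (a k) (r k) d * D0)) ≤ 2 ^ 63 * (a k / r k) := by
  have h1 := h.ua k
  have h2 := u_ge h k
  have hr := h.r1 k
  have h3 := h.uu k
  set X := a k / r k with hX
  have h4 : 2 ^ 42 * u k ≤ X := by
    rw [hX, Nat.le_div_iff_mul_le (by omega)]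
    calc 2 ^ 42 * u k * r k = 2 ^ 42 * (u k * r k) := by ring
      _ ≤ a k := h1
  have h5 : 44 * a k / (r k + d) ≤ 44 * X + 44 := by
    have e1 : 44 * a k / (r k + d) ≤ 44 * a k / r k := Nat.div_le_div_left (by omega) (by omega)
    have e2 : a k < r k * (X + 1) := by
      have := Nat.div_add_mod (a k) (r k)
      have h6 := Nat.mod_lt (a k) (show 0 < r k by omega)
      rw [← hX] at this
      have e3 : r k * (X + 1) = r k * X + r k := by ring
      omega
    have e4 : 44 * a k / r k < 44 * (X + 1) := by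
      rw [Nat.div_lt_iff_lt_mul (by omega)]
      calc 44 * a k < 44 * (r k * (X + 1)) := Nat.mul_lt_mul_of_pos_left e2 (by norm_num)
        _ = 44 * (X + 1) * r k := by ring
    omega
  have h6 : laT u k + 1 ≤ 14 * u k := by
    unfold laT
    omega
  have h7 : Fs u k ≤ 2 ^ 64 * (14 * u k) := by
    unfold Fs Cs
    exact Nat.mul_le_mul_left _ h6
  have h8 : tN (a k) (r k) d ≤ 44 * X + 45 := by
    unfold tN
    omega
  have h9 : tN (a k) (r k) d * D0 ≤ (44 * X + 45) * 2 ^ 16 := Nat.mul_le_mul h8 le_rfl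
  have h10 : 4096 ^ 2 * 2592 * Fs u k ≤ 4096 ^ 2 * 2592 * (2 ^ 64 * (14 * u k)) :=
    Nat.mul_le_mul_left _ h7
  have e64 : (2 : ℕ) ^ 64 = 18446744073709551616 := by norm_num
  have e63 : (2 : ℕ) ^ 63 = 9223372036854775808 := by norm_num
  have e42 : (2 : ℕ) ^ 42 = 4398046511104 := by norm_num
  have e16 : (2 : ℕ) ^ 16 = 65536 := by norm_num
  rw [e64] at h10
  rw [e42] at h4
  rw [e16] at h9
  rw [e63]
  omega

end tow

end Pool.Agent.Helper74.FN.Aux
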