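import Pool.Agent.Helper74.FN.AuxL

/-!
# FN-C1: one stage
-/

set_option autoImplicit false

namespace Pool.Agent.Helper74.FN

open Finset
open Pool.Agent.Helper53.WR
open Pool.Agent.Helper48.FB (win crossF Cs Fs)
open Pool.Agent.Helper53.FM (BCov blockMax)
open Pool.Agent.Helper74.FN.Aux (repF_union_le' num_le u_ge sN_succ)

lemma class_le_one (O : Finset ℕ) (Q : ℕ) (h : ∀ o ∈ O, o < Q) (x : ℕ) :
    (O.filter (fun o => o % Q = x)).card ≤ 1 := by
  rw [Finset.card_le_one]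
  intro a ha b hb
  rw [mem_filter] at ha hb
  have h1 := Nat.mod_eq_of_lt (h a ha.1)
  have h2 := Nat.mod_eq_of_lt (h b hb.1)
  omega

/-- FN-C1 (one stage). -/
theorem ni_step {a u b w r c : ℕ → ℕ} (h : NTow a u b w r c) (f g : ℕ → ℕ) (k : ℕ) (q : ℕ → ℕ)
    (hq : ∀ i, (q i).Prime ∧ 2 ^ (a i) < q i ∧ q i ≤ 2 ^ (a i + 1)) (B : ℕ → Finset ℕ)
    (O A : Finset ℕ) (A' : ℕ → Finset ℕ)
    (hO : NI a u b r c q k O) (hA : NW a u b w r c f g q B k O A A') :
    NI a u b r c q (k + 1) (O ∪ A) := by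
  have hcc := h.cc k
  have hstep := h.step k
  have hstep' := h.step (k + 1)
  have huu' := h.uu' k
  have hu := u_ge h k
  have hu1 := u_ge h (k + 1)
  have hsn := sN_succ h k
  have hbd : ∀ o ∈ O ∪ A, o < 2 ^ (4 * a (k + 1) + 8 * u (k + 1)) := by
    intro o ho
    rcases mem_union.mp ho with h1 | h1
    · exact lt_of_lt_of_le (hO.bd o h1) (Nat.pow_le_pow_right (by norm_num) (by omega))
    · exact (hA.rng o h1).2
  refine ⟨hbd, ⟨mem_union_left _ hO.zo.1, mem_union_left _ hO.zo.2⟩, ?_, ?_, ?_, ?_, ?_⟩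
  · -- c2
    intro i hi x
    rw [filter_union]
    have h1 := hO.c2 i (by omega) x
    have h2 := hA.res2 i (by omega) x
    have h3 := card_union_le (O.filter (fun y => y % (q i) ^ 2 = x))
      (A.filter (fun y => y % (q i) ^ 2 = x))
    have h4 : 2 ^ (4 * u i + b i) / 2 ^ (i - k) * 2 ≤
        2 ^ (4 * u i + b i) / 2 ^ (i - (k + 1)) := by
      have e1 : i - k = (i - (k + 1)) + 1 := by omega
      rw [e1, pow_succ, ← Nat.div_div_eq_div_mul]
      exact Nat.div_mul_le_self _ _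
    have e2 : (k + 1 + 1) * 2 ^ (2 * u i) = (k + 1) * 2 ^ (2 * u i) + 2 ^ (2 * u i) := by ring
    omega
  · -- c4
    intro x
    rw [filter_union]
    have h1 := hO.c4' x
    have h2 := hA.res4 (k + 1) (Or.inl rfl) x
    have h3 := card_union_le (O.filter (fun y => y % (q (k + 1)) ^ 4 = x))
      (A.filter (fun y => y % (q (k + 1)) ^ 4 = x))
    omega
  · -- c4'
    intro x
    rw [filter_union]
    have h0 : ∀ o ∈ O, o < (q (k + 1 + 1)) ^ 4 := by
      intro o ho
      have h1 := hO.bd o ho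
      have h2 : (2 : ℕ) ^ (4 * a k + 8 * u k) ≤ 2 ^ (a (k + 1 + 1) * 4) :=
        Nat.pow_le_pow_right (by norm_num) (by omega)
      have h3 : (2 : ℕ) ^ (a (k + 1 + 1) * 4) ≤ (q (k + 1 + 1)) ^ 4 := by
        rw [pow_mul]
        exact Nat.pow_le_pow_left (hq (k + 1 + 1)).2.1.le 4
      omega
    have h1 := class_le_one O ((q (k + 1 + 1)) ^ 4) h0 x
    have h2 := hA.res4 (k + 1 + 1) (Or.inr rfl) x
    have h3 := card_union_le (O.filter (fun y => y % (q (k + 1 + 1)) ^ 4 = x))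
      (A.filter (fun y => y % (q (k + 1 + 1)) ^ 4 = x))
    omega
  · -- cov
    intro n hn2 hn
    have hup : ∀ x, n ≤ 2 * c k * x → n ≤ 2 * c (k + 1) * x := fun x hx =>
      hx.trans (Nat.mul_le_mul_right _ (Nat.mul_le_mul_left _ hcc))
    by_cases h1 : n < 2 ^ (4 * a k + 8 * u k - 8)
    · obtain ⟨x, hx, y, hy, hxy, hx2, hy2⟩ := hO.cov n hn2 h1
      exact ⟨x, mem_union_left _ hx, y, mem_union_left _ hy, hxy, hup _ hx2, hup _ hy2⟩
    · have h3 : (2 : ℕ) ^ (sN a u k + 8) ≤ 2 ^ (4 * a k + 8 * u k - 8) :=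
        Nat.pow_le_pow_right (by norm_num) (by unfold sN; omega)
      have h4 : (2 : ℕ) ^ (4 * a (k + 1) + 8 * u (k + 1) - 8) ≤ 2 ^ (4 * a k + laT u k) :=
        Nat.pow_le_pow_right (by norm_num) (by unfold laT; omega)
      obtain ⟨x, hx, y, hy, hxy, hx2, hy2⟩ := hA.cov n (by omega) (by omega)
      exact ⟨x, mem_union_right _ hx, y, mem_union_right _ hy, hxy, hup _ hx2, hup _ hy2⟩
  · -- rep
    intro n hn
    have hno : ∀ x ∈ O, ∀ y ∈ O, x + y ≠ n := by
      intro x hx y hy hxy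
      have h1 := hO.bd x hx
      have h2 := hO.bd y hy
      have h3 : (2 : ℕ) ^ (4 * a k + 8 * u k + 1) ≤ 2 ^ sN a u (k + 1) :=
        Nat.pow_le_pow_right (by norm_num) (by unfold sN; omega)
      rw [pow_succ] at h3
      omega
    refine (repF_union_le' hno).trans ?_
    have h1 := hA.self n
    have h2 := hA.cross n
    have h3 := num_le h k (Nat.log 2 n - sN a u k)
    show _ ≤ 2 ^ 63 * (a k / r k)
    omega

end Pool.Agent.Helper74.FN
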