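import Pool.Agent.Helper53.FM.Defs

/-!
# Project FN: definitions

A basis of order two with at most `C j / log j` representations on every dyadic block and small
block maxima on average: towers of worlds without gaps.
-/

set_option autoImplicit false

namespace Pool.Agent.Helper74.FN

open Finset
open Pool.Agent.Helper53.WR
open Pool.Agent.Helper48.FB (win crossF Cs Fs)
open Pool.Agent.Helper53.FM (BCov blockMax)

/-- Above `2 ^ j0` every window `[y, y + h)`, `h ≤ y`, contains at most `W h / sqrt y + L`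
elements (up to rounding). -/
def WinB (A : Finset ℕ) (j0 W L : ℕ) : Prop :=
  ∀ y h : ℕ, 2 ^ j0 ≤ y → h ≤ y →
    (win A y h).card * 2 ^ (Nat.log 2 y / 2) ≤ W * h + L * 2 ^ (Nat.log 2 y / 2)

/-- A finite basis `T` for `[0, 2 ^ J)` with block profile `g`, windows `W = 2 ^ w` and thin subsets
`T' i`; `B i` is the set of the exceptional dyadic blocks of `T' i`. -/
structure NTop (J F w c : ℕ) (f g : ℕ → ℕ) (T : Finset ℕ) (T' B : ℕ → Finset ℕ) : Prop where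
  sub : ∀ i, T' i ⊆ T
  lt : ∀ x ∈ T, x < 2 ^ J
  zo : 0 ∈ T ∧ 1 ∈ T
  cov : ∀ n, 2 ≤ n → n < 2 ^ J → ∃ x ∈ T, ∃ y ∈ T, x + y = n ∧ n ≤ c * x ∧ n ≤ c * y
  rep : ∀ n, repF T n ≤ F
  rep' : ∀ i n, repF (T' i) n ≤ f i
  wn : WinB T (J / 2) (2 ^ w) F
  prof : ∀ j n, 2 ^ j ≤ n → n < 2 ^ (j + 1) → repF T n ≤ g j
  good : ∀ i j, 1 ≤ j → j < J → j ∉ B i → BCov (T' i : Set ℕ) c j

/-- Admissible parameters. World `k` has a prime between `2 ^ a k` and `2 ^ (a k + 1)`, its top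
set has windows `2 ^ w k`; `2 ^ b k` is about `sqrt (a k)`, and the thresholds of the cross sums at
distance `d` are about `a k / (r k + d)`. -/
structure NTow (a u b w r c : ℕ → ℕ) : Prop where
  step : ∀ k, a (k + 1) = a k + u k
  uu : ∀ k, 6 * u (k + 1) ≤ 7 * u k
  uu' : ∀ k, u k ≤ u (k + 1)
  ua : ∀ k, 2 ^ 42 * (u k * r k) ≤ a k
  lu : ∀ k, 1000 * (Nat.log 2 (a k) + 60 + w k + b k) ≤ u k
  ab : ∀ k, a k * 2 ^ 80 ≤ 2 ^ (2 * b k)
  cr : ∀ k, 2 ^ (r k + b k + w k + 80) ≤ a k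
  r1 : ∀ k, 1 ≤ r k
  bb : ∀ k, b k ≤ b (k + 1)
  cc : ∀ k, c k ≤ c (k + 1)
  c2 : ∀ k, 2 ≤ c k

/-- The exponent of the size of the shifts of world `k`. -/
def s0 (u : ℕ → ℕ) (k : ℕ) : ℕ := 8 * u k - 20

/-- The exponent of the start of world `k`. -/
def sN (a u : ℕ → ℕ) (k : ℕ) : ℕ := 4 * a k + 8 * u k - 20

/-- The number of elements of a world in a residue class modulo a fourth power. -/
def C4 : ℕ := 4096 * 4

/-- The number of older elements in a residue class modulo `q k ^ 4`. -/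
def D0 : ℕ := 2 ^ 16

/-- The threshold at distance `d`. -/
def tN (a r d : ℕ) : ℕ := 44 * a / (r + d) + 1

/-- The conclusions for one world `A` (with thin parts `A' i`), older elements `O`. -/
structure NW (a u b w r c : ℕ → ℕ) (f g : ℕ → ℕ) (q : ℕ → ℕ) (B : ℕ → Finset ℕ) (k : ℕ)
    (O A : Finset ℕ) (A' : ℕ → Finset ℕ) : Prop where
  sub : ∀ i, A' i ⊆ A
  rng : ∀ x ∈ A, 2 ^ sN a u k ≤ x ∧ x < 2 ^ (4 * a (k + 1) + 8 * u (k + 1))
  self : ∀ n, repF A n ≤ 4096 ^ 2 * 2592 * Fs u k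
  self' : ∀ i n, repF (A' i) n ≤ 4096 ^ 2 * 2592 * f i
  cov : ∀ n, 2 ^ (sN a u k + 8) ≤ n → n < 2 ^ (4 * a k + laT u k) →
    ∃ x ∈ A, ∃ y ∈ A, x + y = n ∧ n ≤ 2 * c k * x ∧ n ≤ 2 * c k * y
  prof : ∀ j G, sN a u k + 8 ≤ j → j + 1 ≤ 4 * a k + laT u k →
    (∀ i, i ≤ 5 → g (j - 4 * a k - i) ≤ G) → ∀ n, 2 ^ j ≤ n → n < 2 ^ (j + 1) →
      repF A n ≤ 4096 ^ 2 * 2592 * G
  good : ∀ i j, sN a u k + 8 ≤ j → j + 1 ≤ 4 * a k + laT u k →
    (∀ l, l ≤ 5 → j - 4 * a k - l ∉ B i) → BCov (A' i : Set ℕ) (2 * c k) j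
  res2 : ∀ i, k < i → ∀ x, (A.filter (fun y => y % (q i) ^ 2 = x)).card
    ≤ 2 ^ (4 * u i + b i) / 2 ^ (i - k) + 2 ^ (2 * u i)
  res4 : ∀ i, (i = k + 1 ∨ i = k + 2) → ∀ x, (A.filter (fun y => y % (q i) ^ 4 = x)).card ≤ C4
  cross : ∀ n, (crossF A O n).card
    ≤ 4096 * (tN (a k) (r k) (Nat.log 2 n - sN a u k) * D0)
  wn : WinB A 0 (2 ^ (w k + 31)) (2 ^ 16 * a k)

/-- The bound for the representations of the older elements beyond the start of world `k`. -/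
def Rb (a r : ℕ → ℕ) : ℕ → ℕ
  | 0 => Cs * a 0
  | k + 1 => 2 ^ 63 * (a k / r k)

/-- The invariant for the older elements `O` at the start of stage `k`. -/
structure NI (a u b r c : ℕ → ℕ) (q : ℕ → ℕ) (k : ℕ) (O : Finset ℕ) : Prop where
  bd : ∀ o ∈ O, o < 2 ^ (4 * a k + 8 * u k)
  zo : 0 ∈ O ∧ 1 ∈ O
  c2 : ∀ i, k ≤ i → ∀ x, (O.filter (fun y => y % (q i) ^ 2 = x)).card
    ≤ 2 ^ (4 * u i + b i) / 2 ^ (i - k) + (k + 1) * 2 ^ (2 * u i)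
  c4 : ∀ x, (O.filter (fun y => y % (q k) ^ 4 = x)).card ≤ 1 + 2 * C4
  c4' : ∀ x, (O.filter (fun y => y % (q (k + 1)) ^ 4 = x)).card ≤ 1 + C4
  cov : ∀ n, 2 ≤ n → n < 2 ^ (4 * a k + 8 * u k - 8) →
    ∃ x ∈ O, ∃ y ∈ O, x + y = n ∧ n ≤ 2 * c k * x ∧ n ≤ 2 * c k * y
  rep : ∀ n, 2 ^ sN a u k ≤ n → repF O n ≤ Rb a r k

end Pool.Agent.Helper74.FN
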