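import Pool.Agent.Helper74.FN.Z1
import Pool.Agent.Helper59.FN.Z3ab
import Pool.Agent.Helper52.FN.Strip
import Pool.Agent.Helper74.FN.Defs
import Pool.Agent.Helper87.WR.A3

/-!
# FN-Z3: choice of the shifts `τ`
-/

set_option autoImplicit false

namespace Pool.Agent.Helper74.FN

open Finset
open Pool.Agent.Helper3.Thin (dig und off Lab GoodSet und_lt dig_und dig_und_high)
open Pool.Agent.Helper48.FB (win)

lemma und_modEq {q : ℕ} (u v v' : ZMod q × ZMod q) :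
    und u v ≡ und u v' [MOD q ^ 2] := by
  unfold und
  unfold Nat.ModEq
  rw [Nat.add_mul_mod_self_right, Nat.add_mul_mod_self_right]

lemma und_inj {q : ℕ} [Fact q.Prime] {u v v' : ZMod q × ZMod q}
    (h : und u v ≡ und u v' [MOD q ^ 4]) : v = v' := by
  have h1 : und u v = und u v' := Nat.ModEq.eq_of_lt_of_lt h (und_lt u v) (und_lt u v')
  have h2 := dig_und_high u v
  rw [h1, dig_und_high u v'] at h2
  exact h2.symm

/-- The disjoint classes of the elements of `O`. -/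
lemma mass_O_card {q : ℕ} [Fact q.Prime] (O : Finset ℕ) (H : ℕ)
    (hO : ∀ r, (O.filter (fun o => o % q ^ 2 = r)).card ≤ H) (ν : ℕ) (u : ZMod q × ZMod q) :
    ∑ v : ZMod q × ZMod q, (O.filter (fun o => (und u v + o) % q ^ 4 = ν % q ^ 4)).card ≤ H := by
  classical
  rw [← Finset.card_biUnion]
  · by_cases hne : ((univ : Finset (ZMod q × ZMod q)).biUnion
        (fun v => O.filter (fun o => (und u v + o) % q ^ 4 = ν % q ^ 4))).Nonempty
    · obtain ⟨o0, ho0⟩ := hne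
      refine le_trans (Finset.card_le_card ?_) (hO (o0 % q ^ 2))
      intro o ho
      simp only [mem_biUnion, mem_univ, true_and, mem_filter] at ho ho0 ⊢
      obtain ⟨v, hoO, hv⟩ := ho
      obtain ⟨v0, hoO0, hv0⟩ := ho0
      refine ⟨hoO, ?_⟩
      have h1 : und u v + o ≡ und u v0 + o0 [MOD q ^ 4] := by
        unfold Nat.ModEq
        rw [hv, hv0]
      have h2 : und u v + o ≡ und u v0 + o0 [MOD q ^ 2] :=
        h1.of_dvd (pow_dvd_pow q (by norm_num))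
      exact Nat.ModEq.add_left_cancel (und_modEq u v v0) h2
    · rw [Finset.not_nonempty_iff_eq_empty] at hne
      rw [hne]
      simp
  · intro v _ v' _ hvv'
    rw [Function.onFun, Finset.disjoint_left]
    intro o ho ho'
    rw [mem_filter] at ho ho'
    apply hvv'
    apply und_inj (u := u)
    have h1 : und u v + o ≡ und u v' + o [MOD q ^ 4] := by
      unfold Nat.ModEq
      rw [ho.2, ho'.2]
    exact Nat.ModEq.add_right_cancel' o h1

/-- A sum of natural numbers bounds the size of its support. -/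
lemma card_support_le {ι : Type} [Fintype ι] (f : ι → ℕ) (M : ℕ) (h : ∑ i, f i ≤ M) :
    ((univ : Finset ι).filter (fun i => (f i : ℝ) ≠ 0)).card ≤ M := by
  classical
  refine le_trans ?_ h
  rw [Finset.card_eq_sum_ones, Finset.sum_filter]
  refine Finset.sum_le_sum fun i _ => ?_
  split_ifs with hi
  · have : f i ≠ 0 := by exact_mod_cast hi
    omega
  · exact Nat.zero_le _

/-- The weights of the elements of `O` are small. -/
lemma weight_O_le {q : ℕ} [Fact q.Prime] (O : Finset ℕ) (D : ℕ)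
    (hD : ∀ r, (O.filter (fun o => o % q ^ 4 = r)).card ≤ D) (ν : ℕ) (u v : ZMod q × ZMod q) :
    (O.filter (fun o => (und u v + o) % q ^ 4 = ν % q ^ 4)).card ≤ D := by
  by_cases hne : (O.filter (fun o => (und u v + o) % q ^ 4 = ν % q ^ 4)).Nonempty
  · obtain ⟨o0, ho0⟩ := hne
    rw [mem_filter] at ho0
    refine le_trans (Finset.card_le_card ?_) (hD (o0 % q ^ 4))
    intro o ho
    rw [mem_filter] at ho ⊢
    refine ⟨ho.1, ?_⟩
    have h1 : und u v + o ≡ und u v + o0 [MOD q ^ 4] := by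
      unfold Nat.ModEq
      rw [ho.2, ho0.2]
    exact Nat.ModEq.add_left_cancel' _ h1
  · rw [Finset.not_nonempty_iff_eq_empty] at hne
    rw [hne]
    simp

/-- The weights of the residue classes are bounded by the windows of `T`. -/
lemma weight_T_le {q : ℕ} [Fact q.Prime] (T : Finset ℕ) (S V0 m : ℕ) (hc : Nat.Coprime q m)
    (hTm : ∀ t ∈ T, S + t < m) (hVT : ∀ z, (win T z S).card ≤ V0) (r : ℕ)
    (u v : ZMod q × ZMod q) :
    (((range S) ×ˢ T).filter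
      (fun y => (und u v + q ^ 4 * (S + y.1 + y.2)) % m = r % m)).card ≤ V0 := by
  classical
  by_cases hne : (((range S) ×ˢ T).filter
      (fun y => (und u v + q ^ 4 * (S + y.1 + y.2)) % m = r % m)).Nonempty
  · obtain ⟨y0, hy0⟩ := hne
    rw [mem_filter, mem_product, mem_range] at hy0
    obtain ⟨⟨h01, h02⟩, h03⟩ := hy0
    have key : ∀ y ∈ ((range S) ×ˢ T).filter
        (fun y => (und u v + q ^ 4 * (S + y.1 + y.2)) % m = r % m), y.1 + y.2 = y0.1 + y0.2 := by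
      intro y hy
      rw [mem_filter, mem_product, mem_range] at hy
      obtain ⟨⟨h1, h2⟩, h3⟩ := hy
      have e1 : und u v + q ^ 4 * (S + y.1 + y.2) ≡ und u v + q ^ 4 * (S + y0.1 + y0.2) [MOD m] := by
        unfold Nat.ModEq
        rw [h3, h03]
      have e2 := Nat.ModEq.add_left_cancel' _ e1
      have e3 : S + y.1 + y.2 ≡ S + y0.1 + y0.2 [MOD m] :=
        Nat.ModEq.cancel_left_of_coprime
          (by rw [Nat.gcd_comm]; exact (Nat.Coprime.pow_left 4 hc)) e2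
      have e4 : y.1 + y.2 ≡ y0.1 + y0.2 [MOD m] := by
        have e5 : S + (y.1 + y.2) ≡ S + (y0.1 + y0.2) [MOD m] := by
          rw [← add_assoc, ← add_assoc]
          exact e3
        exact Nat.ModEq.add_left_cancel' _ e5
      have g1 := hTm y.2 h2
      have g2 := hTm y0.2 h02
      exact Nat.ModEq.eq_of_lt_of_lt e4 (by omega) (by omega)
    refine le_trans ?_ (hVT (y0.1 + y0.2 + 1 - S))
    refine Finset.card_le_card_of_injOn (fun y => y.2) ?_ ?_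
    · intro y hy
      rw [Finset.mem_coe] at hy
      have h1 := key y hy
      rw [mem_filter, mem_product, mem_range] at hy
      rw [Finset.mem_coe]
      unfold win
      rw [mem_filter]
      refine ⟨hy.1.2, ?_, ?_⟩
      · show y0.1 + y0.2 + 1 - S ≤ y.2
        have := hy.1.1
        omega
      · show y.2 < y0.1 + y0.2 + 1 - S + S
        omega
    · intro y hy y' hy' hyy
      have h1 := key y hy
      have h2 := key y' hy'
      simp only at hyy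
      refine Prod.ext ?_ hyy
      omega
  · rw [Finset.not_nonempty_iff_eq_empty] at hne
    rw [hne]
    simp

/-- At most one `v` for every pair `(s, t)`. -/
lemma support_T_le {q : ℕ} [Fact q.Prime] (T : Finset ℕ) (S m : ℕ) (hc : Nat.Coprime q m)
    (hqm : q ^ 2 ≤ m) (r : ℕ) (u : ZMod q × ZMod q) :
    ∑ v : ZMod q × ZMod q, (((range S) ×ˢ T).filter
      (fun y => (und u v + q ^ 4 * (S + y.1 + y.2)) % m = r % m)).card ≤ S * T.card := by
  classical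
  rw [← Finset.card_biUnion]
  · refine le_trans (Finset.card_le_card (t := (range S) ×ˢ T) ?_) ?_
    · intro y hy
      rw [mem_biUnion] at hy
      obtain ⟨v, -, hv⟩ := hy
      exact (mem_filter.1 hv).1
    · rw [card_product, card_range]
  · intro v _ v' _ hvv'
    rw [Function.onFun, Finset.disjoint_left]
    intro y hy hy'
    rw [mem_filter] at hy hy'
    apply hvv'
    have h1 : und u v + q ^ 4 * (S + y.1 + y.2) ≡ und u v' + q ^ 4 * (S + y.1 + y.2) [MOD m] := by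
      unfold Nat.ModEq
      rw [hy.2, hy'.2]
    have h2 : und u v ≡ und u v' [MOD m] := Nat.ModEq.add_right_cancel' _ h1
    have h3 : und u v ≡ und u v' [MOD q ^ 2] := und_modEq u v v'
    have h4 : und u v ≡ und u v' [MOD q ^ 2 * m] :=
      (Nat.modEq_and_modEq_iff_modEq_mul (Nat.Coprime.pow_left 2 hc)).1 ⟨h3, h2⟩
    have h5 : q ^ 4 ≤ q ^ 2 * m := by
      calc q ^ 4 = q ^ 2 * q ^ 2 := by ring
        _ ≤ q ^ 2 * m := Nat.mul_le_mul_left _ hqm
    have h6 : und u v = und u v' := Nat.ModEq.eq_of_lt_of_lt h4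
      (lt_of_lt_of_le (und_lt u v) h5) (lt_of_lt_of_le (und_lt u v') h5)
    have h7 := dig_und_high u v
    rw [h6, dig_und_high u v'] at h7
    exact h7.symm

/-- A strip of the digit pairs. -/
def Strip {q : ℕ} (c m : ℕ) (v : ZMod q × ZMod q) : Prop :=
  c ≤ v.2.val + v.1.val * q ∧ v.2.val + v.1.val * q < c + m

instance {q : ℕ} (c m : ℕ) : DecidablePred (Strip (q := q) c m) := fun v => by
  unfold Strip; infer_instance

/-- The strips on average. -/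
lemma strip_avg {q : ℕ} [Fact q.Prime] (Γ : Finset (ZMod q × ZMod q)) (hΓ : Γ.card ≤ 3 * q)
    (c m : ℕ) :
    ∑ _u ∈ Γ, ∑ v, ((Γ.filter (fun z => Strip c m (z + v))).card : ℝ) / 6 ≤
      3 / 2 * (m : ℝ) * (q : ℝ) ^ 2 := by
  classical
  have h := Pool.Agent.Helper52.FN.strip_mass Γ hΓ c m
  have h1 : ∑ v, ((Γ.filter (fun z => Strip c m (z + v))).card : ℝ) ≤ 3 * q * (m : ℝ) := by
    have h2 : ∑ v : ZMod q × ZMod q, (Γ.filter (fun z => Strip c m (z + v))).card =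
        ((Γ ×ˢ (univ : Finset (ZMod q × ZMod q))).filter (fun y =>
          c ≤ (y.1 + y.2).2.val + (y.1 + y.2).1.val * q ∧
            (y.1 + y.2).2.val + (y.1 + y.2).1.val * q < c + m)).card := by
      rw [Finset.card_filter, Finset.sum_product_right]
      refine Finset.sum_congr rfl fun v _ => ?_
      rw [Finset.card_filter]
      rfl
    rw [← h2] at h
    have h3 : (((∑ v : ZMod q × ZMod q,
        (Γ.filter (fun z => Strip c m (z + v))).card : ℕ)) : ℝ) ≤ ((3 * q * m : ℕ) : ℝ) := by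
      exact_mod_cast h
    push_cast at h3
    exact h3
  have hΓR : (Γ.card : ℝ) ≤ 3 * q := by exact_mod_cast hΓ
  rw [Finset.sum_const, nsmul_eq_mul, ← Finset.sum_div]
  have h4 : (0 : ℝ) ≤ 3 * q * (m : ℝ) := by positivity
  calc (Γ.card : ℝ) * ((∑ v, ((Γ.filter (fun z => Strip c m (z + v))).card : ℝ)) / 6)
      ≤ (3 * q) * ((3 * q * (m : ℝ)) / 6) := by
        refine mul_le_mul hΓR (by linarith) (by positivity) (by positivity)
    _ = 3 / 2 * (m : ℝ) * (q : ℝ) ^ 2 := by ring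

/-- The hits on average. -/
lemma hit_avg {q : ℕ} [Fact q.Prime] (Γ : Finset (ZMod q × ZMod q)) (hΓ : Γ.card ≤ 3 * q)
    (Z N1 m x : ℕ) (hm : 0 < m) (h1 : q ^ 4 * Z ≤ N1 * m) :
    ∑ u ∈ Γ, ∑ v : ZMod q × ZMod q, (if ∃ z ∈ Γ, ∃ c < Z,
      (und u (z + v) + q ^ 4 * c) % m = x % m then (1 : ℝ) else 0) ≤
        3 * ((N1 : ℝ) + 1) / q * (q : ℝ) ^ 2 := by
  classical
  have hq : 0 < q := (Fact.out : q.Prime).pos
  have hqR : (0 : ℝ) < q := by exact_mod_cast hq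
  have h := Pool.Agent.Helper59.FN.hit_mass Γ hΓ Z N1 m x hm h1
  have h2 : ((Γ ×ˢ (univ : Finset (ZMod q × ZMod q))).filter (fun y =>
      ∃ z ∈ Γ, ∃ c < Z, (und y.1 (z + y.2) + q ^ 4 * c) % m = x % m)).card =
        ∑ u ∈ Γ, ∑ v : ZMod q × ZMod q, (if ∃ z ∈ Γ, ∃ c < Z,
          (und u (z + v) + q ^ 4 * c) % m = x % m then 1 else 0) := by
    rw [Finset.card_filter, Finset.sum_product]
  rw [h2] at h
  have h3 : (((∑ u ∈ Γ, ∑ v : ZMod q × ZMod q, (if ∃ z ∈ Γ, ∃ c < Z,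
          (und u (z + v) + q ^ 4 * c) % m = x % m then 1 else 0) : ℕ)) : ℝ) ≤
        ((3 * q * (N1 + 1) : ℕ) : ℝ) := by
    exact_mod_cast h
  push_cast at h3
  refine h3.trans (le_of_eq ?_)
  field_simp

/-- The exponential moments of the strips. -/
lemma strip_exp (m La : ℕ) :
    Real.exp (Real.exp 1 * (3 / 2 * (m : ℝ))) / Real.exp 1 ^ (5 * m + La) ≤
      Real.exp (-(La : ℝ)) := by
  rw [← Real.exp_nat_mul, ← Real.exp_sub]
  refine Real.exp_le_exp.2 ?_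
  have h2 := Real.exp_one_lt_d9
  have h3 : (0 : ℝ) ≤ (m : ℝ) := Nat.cast_nonneg _
  push_cast
  nlinarith

/-- The exponential moments of the hits. -/
lemma hit_exp {μ : ℝ} (hμ : 0 < μ) : Real.exp (μ⁻¹ * μ) / μ⁻¹ ^ 5 ≤ 3 * μ ^ 5 := by
  rw [inv_mul_cancel₀ hμ.ne', inv_pow, div_inv_eq_mul]
  refine mul_le_mul_of_nonneg_right ?_ (by positivity)
  linarith [Real.exp_one_lt_d9]

/-- Long strips from short strips. -/
lemma strips_long {q : ℕ} [Fact q.Prime] (Γ : Finset (ZMod q × ZMod q)) (La : ℕ)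
    (hLa : 12 * La ≤ q) (τ : ZMod q × ZMod q → ZMod q × ZMod q)
    (key : ∀ c m : ℕ, 1 ≤ m → m ≤ q → ((Γ ×ˢ Γ).filter (fun p =>
        Strip c m (p.2 + τ p.1))).card ≤ 30 * m + 6 * La) (c m : ℕ) (hm1 : 1 ≤ m) :
    ((Γ ×ˢ Γ).filter (fun p => Strip c m (p.2 + τ p.1))).card ≤ 64 * (m + La) := by
  classical
  have hq : 0 < q := (Fact.out : q.Prime).pos
  rcases le_or_gt m q with hmq | hmq
  · refine (key c m hm1 hmq).trans ?_
    omega
  · have hsub : ((Γ ×ˢ Γ).filter (fun p => Strip c m (p.2 + τ p.1))) ⊆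
        (range (m / q + 1)).biUnion (fun i => (Γ ×ˢ Γ).filter (fun p =>
          Strip (c + i * q) q (p.2 + τ p.1))) := by
      intro p hp
      rw [mem_filter] at hp
      rw [mem_biUnion]
      obtain ⟨hp0, hp1, hp2⟩ := hp
      set y := (p.2 + τ p.1).2.val + (p.2 + τ p.1).1.val * q with hy
      have h1 := Nat.div_add_mod (y - c) q
      have h2 := Nat.mod_lt (y - c) hq
      have h3 : (y - c) / q ≤ m / q := Nat.div_le_div_right (by omega)
      have h4 : q * ((y - c) / q) = (y - c) / q * q := mul_comm _ _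
      refine ⟨(y - c) / q, mem_range.2 (by omega), ?_⟩
      rw [mem_filter]
      refine ⟨hp0, ?_, ?_⟩
      · rw [← hy]
        omega
      · rw [← hy]
        omega
    refine (card_le_card hsub).trans (card_biUnion_le.trans ?_)
    refine (Finset.sum_le_card_nsmul _ _ (30 * q + 6 * La) fun i _ =>
      key (c + i * q) q hq le_rfl).trans ?_
    rw [card_range, smul_eq_mul]
    have h5 : m / q * q ≤ m := Nat.div_mul_le_self m q
    have h6 : m / q * (12 * La) ≤ m / q * q := Nat.mul_le_mul_left _ hLa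
    have h7 : (m / q + 1) * (30 * q + 6 * La) = 30 * (m / q * q) + m / q * (6 * La) +
        30 * q + 6 * La := by ring
    have h8 : m / q * (12 * La) = 2 * (m / q * (6 * La)) := by ring
    rw [h7]
    omega

/-- The index set of the first family. -/
def sI (q : ℕ) (Mod : Finset ℕ) : Finset (ℕ ⊕ (Σ _ : ℕ, ℕ)) :=
  (range (q ^ 4)).disjSum (Mod.sigma (fun m => range m))

/-- The index set of the second family. -/
def tI (q : ℕ) (Mod4 : Finset ℕ) : Finset ((ℕ × ℕ) ⊕ (Σ _ : ℕ, ℕ)) :=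
  ((range (q ^ 2)) ×ˢ (range q)).disjSum (Mod4.sigma (fun m => range m))

/-- The weights of the first family. -/
noncomputable def wI {q : ℕ} (T O : Finset ℕ) (S : ℕ) (j : ℕ ⊕ (Σ _ : ℕ, ℕ))
    (u v : ZMod q × ZMod q) : ℝ :=
  Sum.elim (fun ν => ((O.filter (fun o => (und u v + o) % q ^ 4 = ν % q ^ 4)).card : ℝ))
    (fun a => ((((range S) ×ˢ T).filter
      (fun y => (und u v + q ^ 4 * (S + y.1 + y.2)) % a.1 = a.2 % a.1)).card : ℝ)) j

/-- The masses of the first family. -/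
noncomputable def MI' (q : ℕ) (T : Finset ℕ) (S H : ℕ) (j : ℕ ⊕ (Σ _ : ℕ, ℕ)) : ℝ :=
  Sum.elim (fun _ => (H : ℝ)) (fun a => T.card * ((q : ℝ) ^ 2 * S / a.1 + 1)) j

/-- The maxima of the first family. -/
noncomputable def WI (D V0 : ℕ) (j : ℕ ⊕ (Σ _ : ℕ, ℕ)) : ℝ :=
  Sum.elim (fun _ => (D : ℝ)) (fun _ => (V0 : ℝ)) j

open Classical in
/-- The functions of the second family. -/
noncomputable def fI {q : ℕ} (Γ : Finset (ZMod q × ZMod q)) (Z : ℕ)
    (j : (ℕ × ℕ) ⊕ (Σ _ : ℕ, ℕ)) (u v : ZMod q × ZMod q) : ℝ :=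
  Sum.elim (fun p => ((Γ.filter (fun z => Strip p.1 (p.2 + 1) (z + v))).card : ℝ) / 6)
    (fun a => if ∃ z ∈ Γ, ∃ c < Z, (und u (z + v) + q ^ 4 * c) % a.1 = a.2 % a.1 then (1 : ℝ)
      else 0) j

/-- The means of the second family. -/
noncomputable def muI (q N1 : ℕ) (j : (ℕ × ℕ) ⊕ (Σ _ : ℕ, ℕ)) : ℝ :=
  Sum.elim (fun p => 3 / 2 * ((p.2 + 1 : ℕ) : ℝ)) (fun _ => 3 * ((N1 : ℝ) + 1) / q) j

/-- The bases of the second family. -/
noncomputable def AI (q N1 : ℕ) (j : (ℕ × ℕ) ⊕ (Σ _ : ℕ, ℕ)) : ℝ :=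
  Sum.elim (fun _ => Real.exp 1) (fun _ => (3 * ((N1 : ℝ) + 1) / q)⁻¹) j

/-- The thresholds of the second family. -/
def yI (La : ℕ) (j : (ℕ × ℕ) ⊕ (Σ _ : ℕ, ℕ)) : ℕ :=
  Sum.elim (fun p => 5 * (p.2 + 1) + La) (fun _ => 5) j

lemma hms {q : ℕ} {Mod : Finset ℕ} (a : (Σ _ : ℕ, ℕ))
    (ha : (Sum.inr a : ℕ ⊕ (Σ _ : ℕ, ℕ)) ∈ sI q Mod) : a.1 ∈ Mod := by
  unfold sI at ha
  rw [Finset.inr_mem_disjSum, mem_sigma] at ha
  exact ha.1

lemma hmt {q : ℕ} {Mod4 : Finset ℕ} (a : (Σ _ : ℕ, ℕ))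
    (ha : (Sum.inr a : (ℕ × ℕ) ⊕ (Σ _ : ℕ, ℕ)) ∈ tI q Mod4) : a.1 ∈ Mod4 := by
  unfold tI at ha
  rw [Finset.inr_mem_disjSum, mem_sigma] at ha
  exact ha.1

lemma hpt {q : ℕ} {Mod4 : Finset ℕ} (p : ℕ × ℕ)
    (ha : (Sum.inl p : (ℕ × ℕ) ⊕ (Σ _ : ℕ, ℕ)) ∈ tI q Mod4) : p.2 + 1 ≤ q := by
  unfold tI at ha
  rw [Finset.inl_mem_disjSum, mem_product, mem_range, mem_range] at ha
  omega

lemma sI_card (q : ℕ) (Mod : Finset ℕ) :
    ((sI q Mod).card : ℝ) = (q : ℝ) ^ 4 + ∑ m ∈ Mod, (m : ℝ) := by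
  unfold sI
  rw [Finset.card_disjSum, Finset.card_sigma, card_range]
  push_cast
  simp only [card_range]

lemma tI_sum {q : ℕ} (Mod4 : Finset ℕ) (N1 La : ℕ) (hμ : (0 : ℝ) < 3 * ((N1 : ℝ) + 1) / q) :
    ∑ j ∈ tI q Mod4, Real.exp (AI q N1 j * muI q N1 j) / AI q N1 j ^ yI La j ≤
      (q : ℝ) ^ 3 * Real.exp (-(La : ℝ)) +
      ∑ m ∈ Mod4, (m : ℝ) * (3 * (3 * ((N1 : ℝ) + 1) / q) ^ 5) := by
  unfold tI
  rw [Finset.sum_disjSum]
  refine add_le_add ?_ ?_
  · refine (Finset.sum_le_card_nsmul _ _ _ fun p _ => strip_exp (p.2 + 1) La).trans ?_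
    rw [nsmul_eq_mul, card_product, card_range, card_range]
    push_cast
    refine le_of_eq ?_
    ring
  · rw [Finset.sum_sigma]
    refine Finset.sum_le_sum fun m _ => ?_
    refine (Finset.sum_le_card_nsmul _ _ _ fun p _ => hit_exp hμ).trans ?_
    rw [nsmul_eq_mul, card_range]

/-- FN-Z3, all the events. -/
theorem tau_exists3 {q : ℕ} [Fact q.Prime] (Γ : Finset (ZMod q × ZMod q)) (hΓ : Γ.card ≤ 3 * q)
    (hd : ∀ z : ZMod q × ZMod q, z ≠ 0 → ((Γ ×ˢ Γ).filter (fun p => p.1 - p.2 = z)).card ≤ 18)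
    (hcol : ∀ x : ZMod q, (Γ.filter (fun p => p.1 = x)).card ≤ 3)
    (T O : Finset ℕ) (S Z H D X N La N1 V0 : ℕ) (hS : 0 < S) (Mod Mod4 : Finset ℕ)
    (hMod : ∀ m ∈ Mod, 0 < m ∧ Nat.Coprime q m ∧ q ^ 2 ≤ m)
    (hTm : ∀ m ∈ Mod, ∀ t ∈ T, S + t < m)
    (hMod4 : ∀ m ∈ Mod4, 0 < m ∧ Nat.Coprime q m ∧ q ^ 4 * Z ≤ N1 * m ∧ q ^ 4 * Z ≤ m * q ^ 2)
    (hO : ∀ r, (O.filter (fun o => o % q ^ 2 = r)).card ≤ H)
    (hD : ∀ r, (O.filter (fun o => o % q ^ 4 = r)).card ≤ D)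
    (hD0 : 0 < D) (hV0 : 0 < V0) (hVT : ∀ z, (win T z S).card ≤ V0)
    (hX1 : 1 ≤ X) (hXD : X * D ≤ H) (hXV : X * V0 ≤ T.card)
    (hHN : H ≤ N) (hTN : S * T.card ≤ N) (hN0 : 0 < N) (hNq : 54 * N ^ 2 ≤ q)
    (hsum1 : ((q : ℝ) ^ 4 + ∑ m ∈ Mod, (m : ℝ)) *
      (Real.exp (-(8 * (X : ℝ))) + 3 * ((54 * (N : ℝ) ^ 2) / q) ^ 7) < 1 / 2)
    (hN1 : 3 * (N1 + 1) ≤ q)
    (hsum2 : (q : ℝ) ^ 3 * Real.exp (-(La : ℝ)) +
      ∑ m ∈ Mod4, (m : ℝ) * (3 * (3 * ((N1 : ℝ) + 1) / q) ^ 5) < 1 / 2) :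
    ∃ τ : ZMod q × ZMod q → ZMod q × ZMod q,
      (∀ i ∈ sI q Mod, ∑ u ∈ Γ, ∑ z ∈ Γ, wI T O S i u (z + τ u) ≤ 40 * MI' q T S H i) ∧
      ∀ j ∈ tI q Mod4, ∑ u ∈ Γ, fI Γ Z j u (τ u) < yI La j := by
  have hq : 0 < q := (Fact.out : q.Prime).pos
  have hqR : (0 : ℝ) < q := by exact_mod_cast hq
  have hμ : (0 : ℝ) < 3 * ((N1 : ℝ) + 1) / q := by positivity
  refine tau_exists2 Γ hΓ hd (sI q Mod) (wI T O S) (MI' q T S H) (WI D V0) N X hN0 hNq
    ?_ ?_ ?_ ?_ ?_ (by exact_mod_cast hX1) ?_ ?_ (tI q Mod4) (fI Γ Z) (muI q N1) (AI q N1) (yI La)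
    ?_ ?_ ?_ ?_ (lt_of_le_of_lt (tI_sum Mod4 N1 La hμ) hsum2)
  · rintro (ν | a) _ u v
    · exact Nat.cast_nonneg _
    · exact Nat.cast_nonneg _
  · rintro (ν | a) _
    · exact Nat.cast_pos.2 hD0
    · exact Nat.cast_pos.2 hV0
  · rintro (ν | a) hi u v
    · exact Nat.cast_le.2 (weight_O_le O D hD ν u v)
    · have ha := hms a hi
      exact Nat.cast_le.2
        (weight_T_le T S V0 a.1 (hMod a.1 ha).2.1 (hTm a.1 ha) hVT a.2 u v)
  · rintro (ν | a) hi u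
    · have h := mass_O_card O H hO ν u
      have h' : (((∑ v : ZMod q × ZMod q,
        (O.filter (fun o => (und u v + o) % q ^ 4 = ν % q ^ 4)).card : ℕ)) : ℝ) ≤ (H : ℝ) := by
        exact_mod_cast h
      rw [Nat.cast_sum] at h'
      exact h'
    · have ha := hms a hi
      exact Pool.Agent.Helper87.WR.mass_bound T S a.1 hS (hMod a.1 ha).1 (hMod a.1 ha).2.1 a.2 u
  · rintro (ν | a) hi u
    · exact (card_support_le _ _ (mass_O_card O H hO ν u)).trans hHN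
    · have ha := hms a hi
      exact (card_support_le _ _ (support_T_le T S a.1 (hMod a.1 ha).2.1 (hMod a.1 ha).2.2 a.2
        u)).trans hTN
  · rintro (ν | a) hi
    · have h : (X : ℝ) * D ≤ H := by exact_mod_cast hXD
      exact h
    · have ha := hms a hi
      have hm0 : (0 : ℝ) < a.1 := by exact_mod_cast (hMod a.1 ha).1
      have h1 : (X : ℝ) * V0 ≤ T.card := by exact_mod_cast hXV
      have h2 : (0 : ℝ) ≤ (q : ℝ) ^ 2 * S / a.1 := by positivity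
      have h3 : (0 : ℝ) ≤ T.card := Nat.cast_nonneg _
      have h4 : (X : ℝ) * V0 ≤ T.card * ((q : ℝ) ^ 2 * S / a.1 + 1) := by nlinarith
      exact h4
  · rw [sI_card]
    exact hsum1
  · rintro (p | a) _ u _ v
    · exact div_nonneg (Nat.cast_nonneg _) (by norm_num)
    · unfold fI
      simp only [Sum.elim_inr]
      split_ifs <;> norm_num
  · rintro (p | a) hj u _ v
    · have h := Pool.Agent.Helper52.FN.strip_six Γ hcol p.1 (p.2 + 1) (hpt p hj) v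
      have h' : ((Γ.filter (fun z => Strip p.1 (p.2 + 1) (z + v))).card : ℝ) ≤ 6 :=
        Nat.cast_le.2 h
      unfold fI
      simp only [Sum.elim_inl]
      linarith
    · unfold fI
      simp only [Sum.elim_inr]
      split_ifs <;> norm_num
  · rintro (p | a) hj
    · exact strip_avg Γ hΓ p.1 (p.2 + 1)
    · have ha := hmt a hj
      exact hit_avg Γ hΓ Z N1 a.1 a.2 (hMod4 a.1 ha).1 (hMod4 a.1 ha).2.2.1
  · rintro (p | a) _
    · exact Real.one_le_exp zero_le_one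
    · have h : 1 ≤ (3 * ((N1 : ℝ) + 1) / q)⁻¹ := by
        rw [one_le_inv₀ hμ, div_le_one hqR]
        exact_mod_cast hN1
      exact h

/-- FN-Z3 (choice of `τ`). -/
theorem tau_select3 {q : ℕ} [Fact q.Prime] (Γ : Finset (ZMod q × ZMod q)) (hΓ : Γ.card ≤ 3 * q)
    (hd : ∀ z : ZMod q × ZMod q, z ≠ 0 → ((Γ ×ˢ Γ).filter (fun p => p.1 - p.2 = z)).card ≤ 18)
    (hcol : ∀ x : ZMod q, (Γ.filter (fun p => p.1 = x)).card ≤ 3)
    (T O : Finset ℕ) (S Z H D X N La N1 V0 : ℕ) (hS : 0 < S) (Mod Mod4 : Finset ℕ)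
    (hMod : ∀ m ∈ Mod, 0 < m ∧ Nat.Coprime q m ∧ q ^ 2 ≤ m)
    (hTm : ∀ m ∈ Mod, ∀ t ∈ T, S + t < m)
    (hMod4 : ∀ m ∈ Mod4, 0 < m ∧ Nat.Coprime q m ∧ q ^ 4 * Z ≤ N1 * m ∧ q ^ 4 * Z ≤ m * q ^ 2)
    (hO : ∀ r, (O.filter (fun o => o % q ^ 2 = r)).card ≤ H)
    (hD : ∀ r, (O.filter (fun o => o % q ^ 4 = r)).card ≤ D)
    (hD0 : 0 < D) (hV0 : 0 < V0) (hVT : ∀ z, (win T z S).card ≤ V0)
    (hX1 : 1 ≤ X) (hXD : X * D ≤ H) (hXV : X * V0 ≤ T.card)
    (hHN : H ≤ N) (hTN : S * T.card ≤ N) (hN0 : 0 < N) (hNq : 54 * N ^ 2 ≤ q)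
    (hsum1 : ((q : ℝ) ^ 4 + ∑ m ∈ Mod, (m : ℝ)) *
      (Real.exp (-(8 * (X : ℝ))) + 3 * ((54 * (N : ℝ) ^ 2) / q) ^ 7) < 1 / 2)
    (hLa : 12 * La ≤ q) (hN1 : 3 * (N1 + 1) ≤ q)
    (hsum2 : (q : ℝ) ^ 3 * Real.exp (-(La : ℝ)) +
      ∑ m ∈ Mod4, (m : ℝ) * (3 * (3 * ((N1 : ℝ) + 1) / q) ^ 5) < 1 / 2) :
    ∃ τ : ZMod q × ZMod q → ZMod q × ZMod q,
      (∀ ν : ℕ, (((Γ ×ˢ Γ) ×ˢ O).filter (fun y =>
        (und y.1.1 (y.1.2 + τ y.1.1) + y.2) % q ^ 4 = ν % q ^ 4)).card ≤ 40 * H) ∧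
      (∀ m ∈ Mod, ∀ r : ℕ, ((((Γ ×ˢ Γ) ×ˢ ((range S) ×ˢ T)).filter (fun y =>
        (und y.1.1 (y.1.2 + τ y.1.1) + q ^ 4 * (S + y.2.1 + y.2.2)) % m = r % m)).card : ℝ)
          ≤ 40 * (T.card * ((q : ℝ) ^ 2 * S / m + 1))) ∧
      (∀ c m : ℕ, 1 ≤ m → ((Γ ×ˢ Γ).filter (fun p =>
        c ≤ (p.2 + τ p.1).2.val + (p.2 + τ p.1).1.val * q ∧
          (p.2 + τ p.1).2.val + (p.2 + τ p.1).1.val * q < c + m)).card ≤ 64 * (m + La)) ∧
      ∀ m ∈ Mod4, ∀ x : ℕ, ((Γ ×ˢ Γ).filter (fun p =>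
        ∃ c < Z, (und p.1 (p.2 + τ p.1) + q ^ 4 * c) % m = x % m)).card ≤ 4 := by
  classical
  have hq : 0 < q := (Fact.out : q.Prime).pos
  have : NeZero q := ⟨hq.ne'⟩
  obtain ⟨τ, hτ1, hτ2⟩ := tau_exists3 Γ hΓ hd hcol T O S Z H D X N La N1 V0 hS Mod Mod4 hMod hTm
    hMod4 hO hD hD0 hV0 hVT hX1 hXD hXV hHN hTN hN0 hNq hsum1 hN1 hsum2
  refine ⟨τ, ?_, ?_, ?_, ?_⟩
  · intro ν
    have hq4 : 0 < q ^ 4 := pow_pos hq 4
    have hmem : (Sum.inl (ν % q ^ 4) : ℕ ⊕ (Σ _ : ℕ, ℕ)) ∈ sI q Mod := by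
      unfold sI
      rw [Finset.inl_mem_disjSum, mem_range]
      exact Nat.mod_lt _ hq4
    have h := hτ1 _ hmem
    simp only [wI, MI', Sum.elim_inl, Nat.mod_mod] at h
    have hcard : (((Γ ×ˢ Γ) ×ˢ O).filter (fun y =>
        (und y.1.1 (y.1.2 + τ y.1.1) + y.2) % q ^ 4 = ν % q ^ 4)).card
        = ∑ u ∈ Γ, ∑ z ∈ Γ,
          (O.filter (fun o => (und u (z + τ u) + o) % q ^ 4 = ν % q ^ 4)).card := by
      rw [Finset.card_filter, Finset.sum_product, Finset.sum_product]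
      refine Finset.sum_congr rfl fun u _ => Finset.sum_congr rfl fun z _ => ?_
      rw [Finset.card_filter]
    rw [hcard]
    have h' : (((∑ u ∈ Γ, ∑ z ∈ Γ,
          (O.filter (fun o => (und u (z + τ u) + o) % q ^ 4 = ν % q ^ 4)).card : ℕ)) : ℝ)
        ≤ ((40 * H : ℕ) : ℝ) := by
      push_cast
      exact h
    exact_mod_cast h'
  · intro m hmM r
    obtain ⟨hm0, hc, -⟩ := hMod m hmM
    have hmem : (Sum.inr ⟨m, r % m⟩ : ℕ ⊕ (Σ _ : ℕ, ℕ)) ∈ sI q Mod := by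
      unfold sI
      rw [Finset.inr_mem_disjSum, mem_sigma]
      exact ⟨hmM, mem_range.mpr (Nat.mod_lt _ hm0)⟩
    have h := hτ1 _ hmem
    simp only [wI, MI', Sum.elim_inr, Nat.mod_mod] at h
    have hcard : (((Γ ×ˢ Γ) ×ˢ ((range S) ×ˢ T)).filter (fun y =>
        (und y.1.1 (y.1.2 + τ y.1.1) + q ^ 4 * (S + y.2.1 + y.2.2)) % m = r % m)).card
        = ∑ u ∈ Γ, ∑ z ∈ Γ, (((range S) ×ˢ T).filter
          (fun y => (und u (z + τ u) + q ^ 4 * (S + y.1 + y.2)) % m = r % m)).card := by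
      rw [Finset.card_filter, Finset.sum_product, Finset.sum_product]
      refine Finset.sum_congr rfl fun u _ => Finset.sum_congr rfl fun z _ => ?_
      rw [Finset.card_filter]
    rw [hcard]
    push_cast
    exact h
  · have hval : ∀ v : ZMod q × ZMod q, v.2.val + v.1.val * q < q ^ 2 := by
      intro v
      have h1 : v.1.val < q := ZMod.val_lt _
      have h2 : v.2.val < q := ZMod.val_lt _
      nlinarith
    have key : ∀ c m : ℕ, 1 ≤ m → m ≤ q → ((Γ ×ˢ Γ).filter (fun p =>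
        Strip c m (p.2 + τ p.1))).card ≤ 30 * m + 6 * La := by
      intro c m hm1 hm2
      rcases lt_or_ge c (q ^ 2) with hc | hc
      · have hmem : (Sum.inl (c, m - 1) : (ℕ × ℕ) ⊕ (Σ _ : ℕ, ℕ)) ∈ tI q Mod4 := by
          unfold tI
          rw [Finset.inl_mem_disjSum, mem_product]
          exact ⟨mem_range.mpr hc, mem_range.mpr (by omega)⟩
        have h := hτ2 _ hmem
        simp only [fI, yI, Sum.elim_inl, Nat.sub_add_cancel hm1] at h
        rw [← Finset.sum_div] at h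
        have hcard : (((Γ ×ˢ Γ).filter (fun p => Strip c m (p.2 + τ p.1))).card : ℝ)
            = ∑ u ∈ Γ, ((Γ.filter (fun z => Strip c m (z + τ u))).card : ℝ) := by
          rw [← Nat.cast_sum]
          congr 1
          rw [Finset.card_filter, Finset.sum_product]
          refine Finset.sum_congr rfl fun u _ => ?_
          rw [Finset.card_filter]
        have h2 : (((Γ ×ˢ Γ).filter (fun p => Strip c m (p.2 + τ p.1))).card : ℝ) ≤
                ((30 * m + 6 * La : ℕ) : ℝ) := by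
          rw [hcard]
          push_cast at h ⊢
          linarith
        exact_mod_cast h2
      · rw [Finset.filter_false_of_mem]
        · simp
        · intro p _ hp
          exact absurd (lt_of_lt_of_le (hval (p.2 + τ p.1)) hc) (not_lt.mpr hp.1)
    intro c m hm1
    exact strips_long Γ La hLa τ key c m hm1
  · intro m hm x
    obtain ⟨hm0, hc, -, h2⟩ := hMod4 m hm
    have h0 := Pool.Agent.Helper59.FN.hit_card Γ Z m x hm0 hc h2 τ
    have hmem : (Sum.inr ⟨m, x % m⟩ : (ℕ × ℕ) ⊕ (Σ _ : ℕ, ℕ)) ∈ tI q Mod4 := by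
      unfold tI
      rw [Finset.inr_mem_disjSum, mem_sigma]
      exact ⟨hm, mem_range.mpr (Nat.mod_lt _ hm0)⟩
    have h := hτ2 _ hmem
    simp only [fI, yI, Sum.elim_inr, Nat.mod_mod] at h
    rw [Finset.sum_boole] at h
    have h3 : (Γ.filter (fun u => ∃ z ∈ Γ, ∃ c < Z,
        (und u (z + τ u) + q ^ 4 * c) % m = x % m)).card < 5 := by
      exact_mod_cast h
    omega

end Pool.Agent.Helper74.FN
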