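import Pool.Agent.Helper3.ThinCover

/-!
# FN-Z1: selection in a product space, random shifts with an absolute constant
-/

set_option autoImplicit false

namespace Pool.Agent.Helper74.FN

open Finset

/-- Selection in a product space by exponential moments. -/
theorem select_bdd {U V J : Type} [Fintype U] [DecidableEq U] [Fintype V] [Nonempty V]
    (G : Finset U) (s : Finset J) (f : J → U → V → ℝ) (μ : J → ℝ) (x : J → ℕ)
    (h0 : ∀ j ∈ s, ∀ u ∈ G, ∀ v, 0 ≤ f j u v) (h1 : ∀ j ∈ s, ∀ u ∈ G, ∀ v, f j u v ≤ 1)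
    (hμ : ∀ j ∈ s, ∑ u ∈ G, ∑ v, f j u v ≤ μ j * Fintype.card V)
    (A : J → ℝ) (hA : ∀ j ∈ s, 1 ≤ A j)
    (hs : ∑ j ∈ s, Real.exp (A j * μ j) / A j ^ x j < 1) :
    ∃ τ : U → V, ∀ j ∈ s, ∑ u ∈ G, f j u (τ u) < x j := by
  classical
  by_contra hcon
  push Not at hcon
  have hVpos : (0 : ℝ) < Fintype.card V := by exact_mod_cast Fintype.card_pos
  let Y : J → (U → V) → ℝ := fun j τ => (∏ u ∈ G, (1 + A j * f j u (τ u))) / A j ^ x j
  have hfac : ∀ j ∈ s, ∀ u ∈ G, ∀ v, 0 ≤ 1 + A j * f j u v := by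
    intro j hj u hu v
    have := mul_nonneg (le_trans zero_le_one (hA j hj)) (h0 j hj u hu v)
    linarith
  have hY0 : ∀ j ∈ s, ∀ τ, 0 ≤ Y j τ := by
    intro j hj τ
    have hA0 : (0 : ℝ) < A j := lt_of_lt_of_le zero_lt_one (hA j hj)
    exact div_nonneg (Finset.prod_nonneg fun u hu => hfac j hj u hu _) (pow_pos hA0 _).le
  have hlow : ∀ τ : U → V, (1 : ℝ) ≤ ∑ j ∈ s, Y j τ := by
    intro τ
    obtain ⟨j, hj, hbad⟩ := hcon τ
    have hA1 := hA j hj
    have hA0 : (0 : ℝ) < A j := lt_of_lt_of_le zero_lt_one hA1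
    refine le_trans ?_ (Finset.single_le_sum (fun i hi => hY0 i hi τ) hj)
    change 1 ≤ (∏ u ∈ G, (1 + A j * f j u (τ u))) / A j ^ x j
    rw [le_div_iff₀ (pow_pos hA0 _), one_mul]
    calc A j ^ x j = A j ^ ((x j : ℕ) : ℝ) := (Real.rpow_natCast _ _).symm
      _ ≤ A j ^ (∑ u ∈ G, f j u (τ u)) := Real.rpow_le_rpow_of_exponent_le hA1 hbad
      _ = ∏ u ∈ G, A j ^ (f j u (τ u)) := by rw [Real.rpow_sum_of_pos hA0]
      _ ≤ ∏ u ∈ G, (1 + A j * f j u (τ u)) := by
          refine Finset.prod_le_prod (fun u _ => (Real.rpow_pos_of_pos hA0 _).le) fun u hu => ?_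
          have h := rpow_one_add_le_one_add_mul_self (s := A j - 1) (by linarith)
            (h0 j hj u hu (τ u)) (h1 j hj u hu (τ u))
          have e : (1 : ℝ) + (A j - 1) = A j := by ring
          rw [e] at h
          refine h.trans ?_
          nlinarith [h0 j hj u hu (τ u)]
  have hup : ∀ j ∈ s, ∑ τ : U → V, Y j τ ≤
      Fintype.card (U → V) * (Real.exp (A j * μ j) / A j ^ x j) := by
    intro j hj
    have hA1 := hA j hj
    have hA0 : (0 : ℝ) < A j := lt_of_lt_of_le zero_lt_one hA1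
    change ∑ τ : U → V, (∏ u ∈ G, (1 + A j * f j u (τ u))) / A j ^ x j ≤ _
    rw [← Finset.sum_div, ← mul_div_assoc]
    refine div_le_div_of_nonneg_right ?_ (pow_pos hA0 _).le
    have hYe : ∀ τ : U → V, ∏ u ∈ G, (1 + A j * f j u (τ u)) =
        ∏ u : U, (if u ∈ G then 1 + A j * f j u (τ u) else 1) := by
      intro τ
      rw [Finset.prod_ite_mem, Finset.univ_inter]
    simp_rw [hYe]
    have hsum : ∑ τ : U → V, ∏ u : U, (if u ∈ G then 1 + A j * f j u (τ u) else 1) =
        ∏ u : U, ∑ v : V, (if u ∈ G then 1 + A j * f j u v else 1) := by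
      rw [Finset.prod_univ_sum, Fintype.piFinset_univ]
    rw [hsum]
    have hfac' : ∀ u : U, ∑ v : V, (if u ∈ G then 1 + A j * f j u v else 1) ≤
        (Fintype.card V : ℝ) *
          (if u ∈ G then Real.exp (A j * ((∑ v, f j u v) / Fintype.card V)) else 1) := by
      intro u
      by_cases hu : u ∈ G
      · simp only [if_pos hu]
        rw [Finset.sum_add_distrib, ← Finset.mul_sum, Finset.sum_const, Finset.card_univ,
          nsmul_eq_mul, mul_one]
        have h2 := Real.add_one_le_exp (A j * ((∑ v, f j u v) / Fintype.card V))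
        have h3 : (Fintype.card V : ℝ) + A j * ∑ v, f j u v =
            (Fintype.card V : ℝ) * (A j * ((∑ v, f j u v) / Fintype.card V) + 1) := by
          field_simp
          ring
        rw [h3]
        exact mul_le_mul_of_nonneg_left h2 hVpos.le
      · simp only [if_neg hu]
        rw [Finset.sum_const, Finset.card_univ, nsmul_eq_mul]
    have hnn : ∀ u : U, 0 ≤ ∑ v : V, (if u ∈ G then 1 + A j * f j u v else 1) := by
      intro u
      refine Finset.sum_nonneg fun v _ => ?_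
      split_ifs with hu
      · exact hfac j hj u hu v
      · norm_num
    refine le_trans (Finset.prod_le_prod (fun u _ => hnn u) fun u _ => hfac' u) ?_
    rw [Finset.prod_mul_distrib, Finset.prod_const, Finset.card_univ, Finset.prod_ite_mem,
      Finset.univ_inter, ← Real.exp_sum]
    have h5 : (Fintype.card (U → V) : ℝ) = (Fintype.card V : ℝ) ^ Fintype.card U := by
      rw [Fintype.card_fun]
      push_cast
      rfl
    rw [h5]
    refine mul_le_mul_of_nonneg_left ?_ (by positivity)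
    refine Real.exp_le_exp.2 ?_
    rw [← Finset.mul_sum, ← Finset.sum_div]
    refine mul_le_mul_of_nonneg_left ?_ hA0.le
    rw [div_le_iff₀ hVpos]
    exact hμ j hj
  have hcpos : (0 : ℝ) < Fintype.card (U → V) := by
    exact_mod_cast Fintype.card_pos
  have h6 : (Fintype.card (U → V) : ℝ) ≤ ∑ τ : U → V, ∑ j ∈ s, Y j τ := by
    have h7 : ∑ _τ : U → V, (1 : ℝ) = (Fintype.card (U → V) : ℝ) := by
      rw [Finset.sum_const, Finset.card_univ, nsmul_eq_mul, mul_one]
    rw [← h7]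
    exact Finset.sum_le_sum fun τ _ => hlow τ
  rw [Finset.sum_comm] at h6
  have h8 : ∑ j ∈ s, ∑ τ : U → V, Y j τ ≤
      Fintype.card (U → V) * ∑ j ∈ s, Real.exp (A j * μ j) / A j ^ x j := by
    rw [Finset.mul_sum]
    exact Finset.sum_le_sum hup
  nlinarith

/-- Random shifts with an absolute constant. First family: weights with small supports and small
values; second family: bounded functions. -/
theorem tau_exists2 {q : ℕ} [Fact q.Prime] (Γ : Finset (ZMod q × ZMod q)) (hΓ : Γ.card ≤ 3 * q)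
    (hd : ∀ z : ZMod q × ZMod q, z ≠ 0 → ((Γ ×ˢ Γ).filter (fun p => p.1 - p.2 = z)).card ≤ 18)
    {I J : Type} (s : Finset I) (w : I → ZMod q × ZMod q → ZMod q × ZMod q → ℝ) (M W : I → ℝ)
    (N : ℕ) (X : ℝ) (hN0 : 0 < N) (hNq : 54 * N ^ 2 ≤ q)
    (hw : ∀ i ∈ s, ∀ u v, 0 ≤ w i u v) (hW0 : ∀ i ∈ s, 0 < W i)
    (hwW : ∀ i ∈ s, ∀ u v, w i u v ≤ W i) (hM : ∀ i ∈ s, ∀ u, ∑ v, w i u v ≤ M i)
    (hN : ∀ i ∈ s, ∀ u, ((univ : Finset (ZMod q × ZMod q)).filter
      (fun v => w i u v ≠ 0)).card ≤ N)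
    (hX1 : 1 ≤ X) (hX : ∀ i ∈ s, X * W i ≤ M i)
    (hsum : (s.card : ℝ) * (Real.exp (-(8 * X)) + 3 * ((54 * (N : ℝ) ^ 2) / q) ^ 7) < 1 / 2)
    (t : Finset J) (f : J → ZMod q × ZMod q → ZMod q × ZMod q → ℝ) (μ A : J → ℝ) (y : J → ℕ)
    (hf0 : ∀ j ∈ t, ∀ u ∈ Γ, ∀ v, 0 ≤ f j u v) (hf1 : ∀ j ∈ t, ∀ u ∈ Γ, ∀ v, f j u v ≤ 1)
    (hμ : ∀ j ∈ t, ∑ u ∈ Γ, ∑ v, f j u v ≤ μ j * (q : ℝ) ^ 2)
    (hA : ∀ j ∈ t, 1 ≤ A j) (ht : ∑ j ∈ t, Real.exp (A j * μ j) / A j ^ y j < 1 / 2) :
    ∃ τ : ZMod q × ZMod q → ZMod q × ZMod q,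
      (∀ i ∈ s, ∑ u ∈ Γ, ∑ z ∈ Γ, w i u (z + τ u) ≤ 40 * M i) ∧
      ∀ j ∈ t, ∑ u ∈ Γ, f j u (τ u) < y j := by
  classical
  have hq : 0 < q := (Fact.out : q.Prime).pos
  have hqR : (0 : ℝ) < q := by exact_mod_cast hq
  haveI : NeZero q := ⟨hq.ne'⟩
  have hcardF : (Fintype.card (ZMod q × ZMod q) : ℝ) = (q : ℝ) ^ 2 := by
    rw [Fintype.card_prod, ZMod.card]
    push_cast
    ring
  have hΓR : (Γ.card : ℝ) ≤ 3 * q := by exact_mod_cast hΓ
  -- two support points in the shifted set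
  let Bd : I → ZMod q × ZMod q → ZMod q × ZMod q → Prop := fun i u v =>
    ∃ z ∈ Γ, ∃ z' ∈ Γ, z ≠ z' ∧ w i u (z + v) ≠ 0 ∧ w i u (z' + v) ≠ 0
  let Xs : I → ZMod q × ZMod q → ZMod q × ZMod q → ℝ := fun i u v => ∑ z ∈ Γ, w i u (z + v)
  have hXs0 : ∀ i ∈ s, ∀ u v, 0 ≤ Xs i u v := fun i hi u v => Finset.sum_nonneg fun z _ => hw i hi _ _
  have hXsM : ∀ i ∈ s, ∀ u v, Xs i u v ≤ M i := by
    intro i hi u v
    refine le_trans ?_ (hM i hi u)
    calc ∑ z ∈ Γ, w i u (z + v) ≤ ∑ z, w i u (z + v) :=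
          Finset.sum_le_sum_of_subset_of_nonneg (Finset.subset_univ _) fun z _ _ => hw i hi _ _
      _ = ∑ z, w i u z := Fintype.sum_equiv (Equiv.addRight v) _ _ fun z => rfl
  have hXsum : ∀ i ∈ s, ∀ u, ∑ v, Xs i u v ≤ 3 * q * M i := by
    intro i hi u
    have hm0 : 0 ≤ M i := le_trans (Finset.sum_nonneg fun v _ => hw i hi u v) (hM i hi u)
    change ∑ v, ∑ z ∈ Γ, w i u (z + v) ≤ _
    rw [Finset.sum_comm]
    have h1 : ∀ z ∈ Γ, ∑ v, w i u (z + v) ≤ M i := by
      intro z _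
      refine le_trans (le_of_eq ?_) (hM i hi u)
      exact Fintype.sum_equiv (Equiv.addLeft z) _ _ fun v => rfl
    refine le_trans (Finset.sum_le_card_nsmul _ _ _ h1) ?_
    rw [nsmul_eq_mul]
    exact mul_le_mul_of_nonneg_right hΓR hm0
  -- the number of bad shifts
  have hBcard : ∀ i ∈ s, ∀ u, ((univ : Finset (ZMod q × ZMod q)).filter
      (fun v => Bd i u v)).card ≤ 18 * N ^ 2 := by
    intro i hi u
    set Sp := (univ : Finset (ZMod q × ZMod q)).filter (fun v => w i u v ≠ 0) with hSp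
    have hsub : (univ : Finset (ZMod q × ZMod q)).filter (fun v => Bd i u v) ⊆
        ((Sp ×ˢ Sp).filter (fun p => p.1 ≠ p.2)).biUnion (fun p =>
          ((Γ ×ˢ Γ).filter (fun g => g.1 - g.2 = p.1 - p.2)).image (fun g => p.1 - g.1)) := by
      intro v hv
      rw [mem_filter] at hv
      obtain ⟨-, z, hz, z', hz', hne, h1, h2⟩ := hv
      rw [mem_biUnion]
      refine ⟨(z + v, z' + v), ?_, ?_⟩
      · rw [mem_filter, mem_product, hSp, mem_filter, mem_filter]
        refine ⟨⟨⟨mem_univ _, h1⟩, ⟨mem_univ _, h2⟩⟩, ?_⟩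
        intro h
        exact hne (add_right_cancel h)
      · rw [mem_image]
        refine ⟨(z, z'), ?_, ?_⟩
        · rw [mem_filter, mem_product]
          refine ⟨⟨hz, hz'⟩, ?_⟩
          simp
        · simp
    refine (card_le_card hsub).trans (card_biUnion_le.trans ?_)
    have h3 : ∀ p ∈ (Sp ×ˢ Sp).filter (fun p => p.1 ≠ p.2),
        (((Γ ×ˢ Γ).filter (fun g => g.1 - g.2 = p.1 - p.2)).image (fun g => p.1 - g.1)).card
          ≤ 18 := by
      intro p hp
      rw [mem_filter] at hp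
      exact card_image_le.trans (hd _ (sub_ne_zero.2 hp.2))
    refine (Finset.sum_le_card_nsmul _ _ _ h3).trans ?_
    rw [smul_eq_mul]
    have h4 : ((Sp ×ˢ Sp).filter (fun p => p.1 ≠ p.2)).card ≤ N ^ 2 := by
      refine (card_filter_le _ _).trans ?_
      rw [card_product, sq]
      exact Nat.mul_le_mul (hN i hi u) (hN i hi u)
    calc _ ≤ N ^ 2 * 18 := Nat.mul_le_mul_right _ h4
      _ = 18 * N ^ 2 := by ring
  -- the three families
  let x1 : I → ℕ := fun i => ⌈32 * (M i / W i)⌉₊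
  let K := (s.disjSum s).disjSum t
  let F : (I ⊕ I) ⊕ J → ZMod q × ZMod q → ZMod q × ZMod q → ℝ := fun k u v =>
    Sum.elim (Sum.elim (fun i => if Bd i u v then 0 else Xs i u v / W i)
      (fun i => if Bd i u v then 1 else 0)) (fun j => f j u v) k
  let mu : (I ⊕ I) ⊕ J → ℝ := fun k =>
    Sum.elim (Sum.elim (fun i => 9 * (M i / W i)) (fun _ => 54 * (N : ℝ) ^ 2 / q)) μ k
  let AA : (I ⊕ I) ⊕ J → ℝ := fun k =>
    Sum.elim (Sum.elim (fun _ => 4) (fun _ => q / (54 * (N : ℝ) ^ 2))) A k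
  let xx : (I ⊕ I) ⊕ J → ℕ := fun k => Sum.elim (Sum.elim x1 (fun _ => 7)) y k
  have hNR : (0 : ℝ) < N := by exact_mod_cast hN0
  have hNqR : 54 * (N : ℝ) ^ 2 ≤ q := by exact_mod_cast hNq
  have hsel : ∃ τ : ZMod q × ZMod q → ZMod q × ZMod q, ∀ k ∈ K,
      ∑ u ∈ Γ, F k u (τ u) < xx k := by
    refine select_bdd Γ K F mu xx ?_ ?_ ?_ AA ?_ ?_
    · rintro ((i | i) | j) hk u hu v
      · have hi : i ∈ s := by simpa [K] using hk
        simp only [F, Sum.elim_inl]
        split_ifs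
        · exact le_rfl
        · exact div_nonneg (hXs0 i hi u v) (hW0 i hi).le
      · simp only [F, Sum.elim_inl, Sum.elim_inr]
        split_ifs <;> norm_num
      · have hj : j ∈ t := by simpa [K] using hk
        exact hf0 j hj u hu v
    · rintro ((i | i) | j) hk u hu v
      · have hi : i ∈ s := by simpa [K] using hk
        simp only [F, Sum.elim_inl]
        split_ifs with hb
        · norm_num
        · rw [div_le_one (hW0 i hi)]
          by_cases hex : ∃ z ∈ Γ, w i u (z + v) ≠ 0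
          · obtain ⟨z, hz, hne⟩ := hex
            have h5 : Xs i u v = w i u (z + v) := by
              refine Finset.sum_eq_single_of_mem z hz ?_
              intro z' hz' hzz
              by_contra h6
              exact hb ⟨z, hz, z', hz', hzz.symm, hne, h6⟩
            rw [h5]
            exact hwW i hi _ _
          · push Not at hex
            have h5 : Xs i u v = 0 := Finset.sum_eq_zero hex
            rw [h5]
            exact (hW0 i hi).le
      · simp only [F, Sum.elim_inl, Sum.elim_inr]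
        split_ifs <;> norm_num
      · have hj : j ∈ t := by simpa [K] using hk
        exact hf1 j hj u hu v
    · rintro ((i | i) | j) hk
      · have hi : i ∈ s := by simpa [K] using hk
        simp only [F, mu, Sum.elim_inl]
        rw [hcardF]
        have hm0 : 0 ≤ M i := le_trans (Finset.sum_nonneg fun v _ => hw i hi 0 v) (hM i hi 0)
        have h5 : ∀ u ∈ Γ, ∑ v, (if Bd i u v then 0 else Xs i u v / W i) ≤ 3 * q * M i / W i := by
          intro u _
          calc ∑ v, (if Bd i u v then 0 else Xs i u v / W i) ≤ ∑ v, Xs i u v / W i := by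
                refine Finset.sum_le_sum fun v _ => ?_
                split_ifs
                · exact div_nonneg (hXs0 i hi u v) (hW0 i hi).le
                · exact le_rfl
            _ = (∑ v, Xs i u v) / W i := by rw [Finset.sum_div]
            _ ≤ _ := div_le_div_of_nonneg_right (hXsum i hi u) (hW0 i hi).le
        refine (Finset.sum_le_card_nsmul _ _ _ h5).trans ?_
        rw [nsmul_eq_mul]
        have h6 : 0 ≤ 3 * q * M i / W i := div_nonneg (by positivity) (hW0 i hi).le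
        calc (Γ.card : ℝ) * (3 * q * M i / W i) ≤ (3 * q) * (3 * q * M i / W i) :=
              mul_le_mul_of_nonneg_right hΓR h6
          _ = 9 * (M i / W i) * (q : ℝ) ^ 2 := by ring
      · have hi : i ∈ s := by simpa [K] using hk
        simp only [F, mu, Sum.elim_inl, Sum.elim_inr]
        rw [hcardF]
        have h5 : ∀ u ∈ Γ, ∑ v, (if Bd i u v then (1 : ℝ) else 0) ≤ 18 * (N : ℝ) ^ 2 := by
          intro u _
          rw [Finset.sum_boole]
          exact_mod_cast hBcard i hi u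
        refine (Finset.sum_le_card_nsmul _ _ _ h5).trans ?_
        rw [nsmul_eq_mul]
        calc (Γ.card : ℝ) * (18 * (N : ℝ) ^ 2) ≤ (3 * q) * (18 * (N : ℝ) ^ 2) :=
              mul_le_mul_of_nonneg_right hΓR (by positivity)
          _ = 54 * (N : ℝ) ^ 2 / q * (q : ℝ) ^ 2 := by
              field_simp
              ring
      · have hj : j ∈ t := by simpa [K] using hk
        simp only [F, mu, Sum.elim_inr]
        rw [hcardF]
        exact hμ j hj
    · rintro ((i | i) | j) hk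
      · simp only [AA, Sum.elim_inl]
        norm_num
      · simp only [AA, Sum.elim_inl, Sum.elim_inr]
        rw [le_div_iff₀ (by positivity), one_mul]
        exact hNqR
      · have hj : j ∈ t := by simpa [K] using hk
        exact hA j hj
    · have hsplit : ∑ k ∈ K, Real.exp (AA k * mu k) / AA k ^ xx k =
          (∑ i ∈ s, Real.exp (4 * (9 * (M i / W i))) / 4 ^ x1 i +
            ∑ _i ∈ s, Real.exp (q / (54 * (N : ℝ) ^ 2) * (54 * (N : ℝ) ^ 2 / q)) /
              (q / (54 * (N : ℝ) ^ 2)) ^ 7) +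
            ∑ j ∈ t, Real.exp (A j * μ j) / A j ^ y j := by
        simp only [K, Finset.sum_disjSum]
        rfl
      rw [hsplit]
      have h5 : ∀ i ∈ s, Real.exp (4 * (9 * (M i / W i))) / 4 ^ x1 i ≤ Real.exp (-(8 * X)) := by
        intro i hi
        have hr : X ≤ M i / W i := by
          rw [le_div_iff₀ (hW0 i hi)]
          exact hX i hi
        set r := M i / W i with hrdef
        have hx1 : 32 * r ≤ (x1 i : ℝ) := Nat.le_ceil _
        have hl4 : (1.38 : ℝ) ≤ Real.log 4 := by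
          have h7 : Real.log 4 = 2 * Real.log 2 := by
            rw [show (4 : ℝ) = 2 ^ 2 by norm_num, Real.log_pow]
            norm_num
          rw [h7]
          linarith [Real.log_two_gt_d9]
        have h8 : (4 : ℝ) ^ x1 i = Real.exp (x1 i * Real.log 4) := by
          rw [mul_comm, Real.exp_mul, Real.exp_log (by norm_num), Real.rpow_natCast]
        rw [h8, ← Real.exp_sub]
        refine Real.exp_le_exp.2 ?_
        have hr0 : 0 ≤ r := le_trans (by linarith) hr
        nlinarith [mul_le_mul hx1 hl4 (by norm_num) (Nat.cast_nonneg (x1 i))]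
      have h6 : Real.exp (q / (54 * (N : ℝ) ^ 2) * (54 * (N : ℝ) ^ 2 / q)) /
              (q / (54 * (N : ℝ) ^ 2)) ^ 7 ≤ 3 * ((54 * (N : ℝ) ^ 2) / q) ^ 7 := by
        have e1 : q / (54 * (N : ℝ) ^ 2) * (54 * (N : ℝ) ^ 2 / q) = 1 := by
          field_simp
        rw [e1]
        have e2 : (q / (54 * (N : ℝ) ^ 2)) = ((54 * (N : ℝ) ^ 2) / q)⁻¹ := by
          rw [inv_div]
        rw [e2, inv_pow, div_inv_eq_mul]
        refine mul_le_mul_of_nonneg_right ?_ (by positivity)
        linarith [Real.exp_one_lt_d9]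
      have h7 := Finset.sum_le_card_nsmul _ _ _ h5
      rw [nsmul_eq_mul] at h7
      have h8 : ∑ _i ∈ s, Real.exp (q / (54 * (N : ℝ) ^ 2) * (54 * (N : ℝ) ^ 2 / q)) /
              (q / (54 * (N : ℝ) ^ 2)) ^ 7 ≤ s.card * (3 * ((54 * (N : ℝ) ^ 2) / q) ^ 7) := by
        rw [Finset.sum_const, nsmul_eq_mul]
        exact mul_le_mul_of_nonneg_left h6 (Nat.cast_nonneg _)
      nlinarith
  obtain ⟨τ, hτ⟩ := hsel
  refine ⟨τ, ?_, ?_⟩
  · intro i hi
    have hm1 : (Sum.inl (Sum.inl i) : (I ⊕ I) ⊕ J) ∈ K := by simpa [K] using hi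
    have hm2 : (Sum.inl (Sum.inr i) : (I ⊕ I) ⊕ J) ∈ K := by simpa [K] using hi
    have g1 := hτ _ hm1
    have g2 := hτ _ hm2
    simp only [F, xx, Sum.elim_inl, Sum.elim_inr] at g1 g2
    have hWi := hW0 i hi
    have hMX := hX i hi
    have hm0 : 0 ≤ M i := le_trans (Finset.sum_nonneg fun v _ => hw i hi 0 v) (hM i hi 0)
    have hr1 : W i ≤ M i := by nlinarith
    have g3 : (x1 i : ℝ) < 32 * (M i / W i) + 1 := Nat.ceil_lt_add_one (by positivity)
    have g4 : ∑ u ∈ Γ, Xs i u (τ u) ≤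
        W i * ∑ u ∈ Γ, (if Bd i u (τ u) then 0 else Xs i u (τ u) / W i) +
          M i * ∑ u ∈ Γ, (if Bd i u (τ u) then (1 : ℝ) else 0) := by
      rw [Finset.mul_sum, Finset.mul_sum, ← Finset.sum_add_distrib]
      refine Finset.sum_le_sum fun u _ => ?_
      split_ifs
      · rw [mul_zero, zero_add, mul_one]
        exact hXsM i hi u _
      · rw [mul_zero, add_zero, mul_div_cancel₀ _ hWi.ne']
    have g5 : W i * ∑ u ∈ Γ, (if Bd i u (τ u) then 0 else Xs i u (τ u) / W i) ≤ 33 * M i := by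
      calc _ ≤ W i * (32 * (M i / W i) + 1) := mul_le_mul_of_nonneg_left (g1.le.trans g3.le) hWi.le
        _ = 32 * M i + W i := by
            field_simp
        _ ≤ _ := by linarith
    have g6 : M i * ∑ u ∈ Γ, (if Bd i u (τ u) then (1 : ℝ) else 0) ≤ M i * 7 := by
      refine mul_le_mul_of_nonneg_left ?_ hm0
      have := g2.le
      norm_num at this ⊢
      exact this
    calc ∑ u ∈ Γ, ∑ z ∈ Γ, w i u (z + τ u) = ∑ u ∈ Γ, Xs i u (τ u) := rfl
      _ ≤ 40 * M i := by linarith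
  · intro j hj
    have hm1 : (Sum.inr j : (I ⊕ I) ⊕ J) ∈ K := by simpa [K] using hj
    exact hτ _ hm1

end Pool.Agent.Helper74.FN
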